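import Mathlib
import Pool.Agent.Helper78.DiffeoDefs
import Pool.Agent.Helper78.DiffeoProof

open scoped Manifold ContDiff
open Pool.Agent.Helper78.Diffeo

/-- For every closed smooth manifold `M` the set of all `f` in `Diff^∞(M)` that are
topologically conjugate to a structurally stable diffeomorphism is a Borel set for the `C^∞`
topology. The stable diffeomorphism may be required to be of any class `C^r`; `r = 1` and
`r = ∞` are the two readings of the question. -/
theorem Pool.Agent.Results.MP_c32980_lc.BorelConjStable.result
    (n : ℕ) (M : Type) [TopologicalSpace M] [ChartedSpace (EuclideanSpace ℝ (Fin n)) M]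
    [IsManifold (𝓡 n) ∞ M] [CompactSpace M] [T2Space M] (r : WithTop ℕ∞) :
    @MeasurableSet (Diff n M ∞) (@borel (Diff n M ∞) (smoothTopology n M))
      (conjStable n M r) :=
  measurable_conjStable n M r
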